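import Mathlib
import Pool.Agent.Helper56_WN.Defs

/-!
# Codes of sequences of closed sets
-/

set_option autoImplicit false

namespace Pool.Agent.Helper15DD

open MeasureTheory Pool.Agent.Helper25TD Pool.Agent.Helper56WN

/-- the `i`-th closed set with code `c`: the set of all `x` no initial segment `s` of which has
`c (i, s) = 1` -/
def Clo (c : ℕ → Bool) (i : ℕ) : Set (ℕ → Bool) :=
  {x | ∀ s : List Bool, Init s x → c (Nat.pair i (Encodable.encode s)) = false}

/-- the set of all `y` that compute a code `c` of a sequence of members of `CC` whose union contains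
all elements of `E` that are computable from `y` -/
def Vs (CC : Set (Set (ℕ → Bool))) (E : Set (ℕ → Bool)) : Set (ℕ → Bool) :=
  {y | ∃ c, TLE c y ∧ (∀ i, Clo c i ∈ CC) ∧ ∀ x ∈ E, TLE x y → ∃ i, x ∈ Clo c i}

/-- `E` is covered by countably many members of `CC` -/
def Small (CC : Set (Set (ℕ → Bool))) (E : Set (ℕ → Bool)) : Prop :=
  ∃ K : ℕ → Set (ℕ → Bool), (∀ n, K n ∈ CC) ∧ E ⊆ ⋃ n, K n

/-- a family of closed sets that contains the empty set and all closed subsets of its members -/
structure Hereditary (CC : Set (Set (ℕ → Bool))) : Prop where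
  closed : ∀ C ∈ CC, IsClosed C
  empty : ∅ ∈ CC
  mono : ∀ C ∈ CC, ∀ C' ⊆ C, IsClosed C' → C' ∈ CC

/-- the closed sets that are null for all measures in `M` -/
def NullFor (M : Set (Measure (ℕ → Bool))) : Set (Set (ℕ → Bool)) :=
  {C | IsClosed C ∧ ∀ μ ∈ M, μ C = 0}

end Pool.Agent.Helper15DD
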