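import Mathlib
import Pool.Agent.Helper15_DD.Defs
import Pool.Agent.Helper56_WN.Null

/-!
# Basic properties of the codes
-/

set_option autoImplicit false

namespace Pool.Agent.Helper15DD

open MeasureTheory Pool.Agent.Helper25TD Pool.Agent.Helper56WN

theorem isOpen_init (s : List Bool) : IsOpen {x : ℕ → Bool | Init s x} := by
  have h1 : {x : ℕ → Bool | Init s x} =
      ⋂ j ∈ Finset.range s.length, (fun x : ℕ → Bool => x j) ⁻¹' {s.getD j false} := by
    ext x
    simp [Init]
  rw [h1]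
  exact isOpen_biInter_finset fun j _ => (isOpen_discrete _).preimage (continuous_apply j)

/-- an open set contains a cylinder around each of its points -/
theorem exists_pre {O : Set (ℕ → Bool)} (hO : IsOpen O) {x : ℕ → Bool} (hx : x ∈ O) :
    ∃ m, ∀ n ≥ m, ∀ y, Init (pre x n) y → y ∈ O := by
  obtain ⟨I, u, hI, hu⟩ := (isOpen_pi_iff.1 hO) x hx
  refine ⟨I.sup id + 1, fun n hn y hy => hu fun i hi => ?_⟩
  have h1 : i < n := lt_of_lt_of_le (Nat.lt_succ_of_le (Finset.le_sup (f := id) hi)) hn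
  have h2 := hy i (by simpa [pre] using h1)
  rw [h2]
  have h3 : (pre x n).getD i false = x i := by simp [pre, List.getD_eq_getElem?_getD, h1]
  rw [h3]
  exact (hI i hi).2

theorem isClosed_Clo (c : ℕ → Bool) (i : ℕ) : IsClosed (Clo c i) := by
  rw [← isOpen_compl_iff, isOpen_iff_forall_mem_open]
  intro x hx
  have hx' : ∃ s : List Bool, Init s x ∧ ¬ c (Nat.pair i (Encodable.encode s)) = false := by
    by_contra hcon
    push Not at hcon
    exact hx hcon
  obtain ⟨s, h1, h2⟩ := hx'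
  exact ⟨{x | Init s x}, fun y hy hyC => h2 (hyC s hy), isOpen_init s, h1⟩

/-- every sequence of closed sets has a code -/
theorem exists_code {K : ℕ → Set (ℕ → Bool)} (hK : ∀ n, IsClosed (K n)) :
    ∃ c, ∀ n, Clo c n = K n := by
  classical
  refine ⟨fun m => decide (∀ s : List Bool, Encodable.decode m.unpair.2 = some s →
    ∀ x, Init s x → x ∉ K m.unpair.1), fun n => ?_⟩
  ext x
  constructor
  · intro hx
    by_contra hxK
    obtain ⟨m, hm⟩ := exists_pre (hK n).isOpen_compl hxK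
    have h1 := hx (pre x m) (init_pre x m)
    rw [decide_eq_false_iff_not] at h1
    refine h1 fun s hs y hy => ?_
    simp only [Nat.unpair_pair, Encodable.encodek, Option.some.injEq] at hs ⊢
    subst hs
    exact hm m le_rfl y hy
  · intro hx s hs
    rw [decide_eq_false_iff_not]
    intro h1
    have h2 := h1 s (by simp) x hs
    rw [Nat.unpair_pair] at h2
    exact h2 hx

variable {CC : Set (Set (ℕ → Bool))} {E F : Set (ℕ → Bool)}

theorem Small.mono (h : Small CC E) (hF : F ⊆ E) : Small CC F := by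
  obtain ⟨K, h1, h2⟩ := h
  exact ⟨K, h1, hF.trans h2⟩

theorem Small.exists_code (hC : Hereditary CC) (h : Small CC E) :
    ∃ c, (∀ i, Clo c i ∈ CC) ∧ E ⊆ ⋃ i, Clo c i := by
  obtain ⟨K, h1, h2⟩ := h
  obtain ⟨c, hc⟩ := Pool.Agent.Helper15DD.exists_code fun n => hC.closed _ (h1 n)
  refine ⟨c, fun i => by rw [hc]; exact h1 i, fun x hx => ?_⟩
  obtain ⟨i, hi⟩ := Set.mem_iUnion.1 (h2 hx)
  exact Set.mem_iUnion.2 ⟨i, by rw [hc]; exact hi⟩

theorem small_iUnion {S : ℕ → Set (ℕ → Bool)} (h : ∀ i, Small CC (S i)) : Small CC (⋃ i, S i) := by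
  choose K h1 h2 using h
  refine ⟨fun m => K m.unpair.1 m.unpair.2, fun m => h1 _ _, fun x hx => ?_⟩
  obtain ⟨i, hi⟩ := Set.mem_iUnion.1 hx
  obtain ⟨j, hj⟩ := Set.mem_iUnion.1 (h2 i hi)
  refine Set.mem_iUnion.2 ⟨Nat.pair i j, ?_⟩
  simpa using hj

theorem small_of_mem {C : Set (ℕ → Bool)} (h : C ∈ CC) : Small CC C :=
  ⟨fun _ => C, fun _ => h, Set.subset_iUnion (fun _ : ℕ => C) 0⟩

/-- a set that is not small is not covered by a countable subfamily of `CC` -/
theorem exists_notMem (hC : Hereditary CC) (hE : ¬ Small CC E) {ι : Type*} [Countable ι]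
    (D : ι → Set (ℕ → Bool)) : ∃ x ∈ E, ∀ i, D i ∈ CC → x ∉ D i := by
  classical
  by_contra hcon
  push Not at hcon
  apply hE
  rcases isEmpty_or_nonempty ι with hι | hι
  · refine ⟨fun _ => ∅, fun _ => hC.empty, fun x hx => ?_⟩
    obtain ⟨i, -⟩ := hcon x hx
    exact (hι.false i).elim
  · obtain ⟨f, hf⟩ := exists_surjective_nat ι
    refine ⟨fun n => if D (f n) ∈ CC then D (f n) else ∅, fun n => ?_, fun x hx => ?_⟩
    · by_cases h : D (f n) ∈ CC
      · simp only [h, if_true]
      · simp only [h, if_false]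
        exact hC.empty
    · obtain ⟨i, hi, hxi⟩ := hcon x hx
      obtain ⟨n, rfl⟩ := hf i
      refine Set.mem_iUnion.2 ⟨n, ?_⟩
      simp only [hi, if_true]
      exact hxi

theorem hereditary_nullFor (M : Set (Measure (ℕ → Bool))) : Hereditary (NullFor M) where
  closed _ h := h.1
  empty := ⟨isClosed_empty, fun _ _ => measure_empty⟩
  mono _ h _ h1 h2 := ⟨h2, fun μ hμ => measure_mono_null h1 (h.2 μ hμ)⟩

theorem turingInvariant_Vs (CC : Set (Set (ℕ → Bool))) (E : Set (ℕ → Bool)) :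
    TuringInvariant (Vs CC E) := by
  rintro x y hxy hyx ⟨c, hc, hC, hcx⟩
  exact ⟨c, hc.trans hxy, hC, fun e he hey => hcx e he (hey.trans hyx)⟩

end Pool.Agent.Helper15DD
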