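import Mathlib
import Pool.Agent.Helper25_TD.Oracle

/-!
# Decoding flagged symbols

A real `r` is read as the sequence of the symbols `(r (2 p), r (2 p + 1))`; the first bit is the
flag of the symbol.
-/

set_option autoImplicit false

namespace Pool.Agent.Helper15DD

open Pool.Agent.Helper25TD

theorem TR.addN {x : ℕ → Bool} {f g : ℕ → ℕ} (hf : TR x f) (hg : TR x g) :
    TR x fun n => f n + g n := by
  have h1 : TR x fun n => (Nat.unpair n).1 + (Nat.unpair n).2 :=
    TR.prim (Primrec.nat_add.comp (Primrec.fst.comp Primrec.unpair)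
      (Primrec.snd.comp Primrec.unpair))
  have h2 := h1.comp (hf.pair hg)
  simpa using h2

theorem TR.iter {x : ℕ → Bool} {g : ℕ → ℕ} (a : ℕ) (hg : TR x g) :
    TR x fun n => Nat.rec a (fun _ i => g i) n := by
  have h1 : TR x fun m => g (Nat.unpair (Nat.unpair m).2).2 :=
    hg.comp (TR.prim (Primrec.snd.comp (Primrec.unpair.comp
      (Primrec.snd.comp Primrec.unpair))))
  have h2 := (TR.prec (TR.prim (Primrec.const a)) h1).comp
    (TR.prim (Primrec₂.natPair.comp (Primrec.const 0) Primrec.id))
  simp only [Nat.unpair_pair, id] at h2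
  exact h2

/-- the positions `P j` of the flagged symbols are computable from `r` -/
theorem TR.positions {r : ℕ → Bool} {P : ℕ → ℕ} (h0 : ∀ p < P 0, r (2 * p) = false)
    (hP : ∀ j, r (2 * P j) = true)
    (hgap : ∀ j p, P j < p → p < P (j + 1) → r (2 * p) = false)
    (hlt : ∀ j, P j < P (j + 1)) : TR r P := by
  classical
  have hge : ∀ m, m ≤ P m := by
    intro m
    induction m with
    | zero => exact Nat.zero_le _
    | succ m ih => exact Nat.succ_le_of_lt (ih.trans_lt (hlt m))
  have hex : ∀ m, ∃ p, m ≤ p ∧ r (2 * p) = true := fun m => ⟨P m, hge m, hP m⟩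
  let nx : ℕ → ℕ := fun m => Nat.find (hex m)
  have hnx : ∀ {m q}, m ≤ q → r (2 * q) = true → (∀ p, m ≤ p → p < q → r (2 * p) = false) →
      nx m = q := by
    intro m q h1 h2 h3
    refine (Nat.find_eq_iff (hex m)).2 ⟨⟨h1, h2⟩, fun p hp => ?_⟩
    rintro ⟨h4, h5⟩
    rw [h3 p h4 hp] at h5
    exact absurd h5 (by simp)
  have h1 : TR r fun n => ((Nat.unpair n).1 - (Nat.unpair n).2) +
      (1 - (r (2 * (Nat.unpair n).2)).toNat) := by
    refine TR.addN (TR.prim (Primrec.nat_sub.comp (Primrec.fst.comp Primrec.unpair)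
      (Primrec.snd.comp Primrec.unpair))) ?_
    have h2 : TR r fun n => 1 - n := TR.prim (Primrec.nat_sub.comp (Primrec.const 1) Primrec.id)
    have h3 : TR r fun n => (r n).toNat := TR.of_le (TLE.refl r)
    exact h2.comp (h3.comp (TR.prim (Primrec.nat_mul.comp (Primrec.const 2)
      (Primrec.snd.comp Primrec.unpair))))
  have h2 : TR r nx := by
    refine TR.rfind h1 (fun a => ?_) fun a n hn => ?_
    · obtain ⟨h3, h4⟩ := Nat.find_spec (hex a)
      simp only [Nat.unpair_pair]
      change a - nx a + (1 - (r (2 * nx a)).toNat) = 0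
      rw [show r (2 * nx a) = true from h4, Nat.sub_eq_zero_of_le h3]
      rfl
    · have h3 := Nat.find_min (hex a) hn
      simp only [Nat.unpair_pair]
      intro h4
      apply h3
      have h5 : a - n = 0 := by omega
      have h6 : 1 - (r (2 * n)).toNat = 0 := by omega
      refine ⟨Nat.sub_eq_zero_iff_le.1 h5, ?_⟩
      cases h7 : r (2 * n)
      · rw [h7] at h6
        simp at h6
      · rfl
  have h3 : TR r fun i => nx (i + 1) := h2.comp (TR.prim Primrec.succ)
  have h4 := TR.iter (nx 0) h3
  have h5 : (fun n => Nat.rec (nx 0) (fun _ i => nx (i + 1)) n) = P := by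
    funext n
    induction n with
    | zero => exact hnx (Nat.zero_le _) (hP 0) fun p _ hp => h0 p hp
    | succ n ih =>
      have h6 : (Nat.rec (nx 0) (fun _ i => nx (i + 1)) n : ℕ) = P n := ih
      change nx (Nat.rec (nx 0) (fun _ i => nx (i + 1)) n + 1) = P (n + 1)
      rw [h6]
      exact hnx (Nat.succ_le_of_lt (hlt n)) (hP _) fun p hp hp' => hgap n p (by omega) hp'
  rw [h5] at h4
  exact h4

/-- the bit at the position given by a computable function of the position of the `j`-th flagged
symbol -/
theorem TLE.of_positions {r w : ℕ → Bool} {P : ℕ → ℕ} (hP : TR r P) (k : ℕ)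
    (hw : ∀ j, r (2 * P j + k) = w j) : TLE w r := by
  refine TR.to_le ?_
  have h1 : TR r fun n => (r n).toNat := TR.of_le (TLE.refl r)
  have h2 := (h1.comp (TR.prim (Primrec.nat_add.comp
    (Primrec.nat_mul.comp (Primrec.const 2) Primrec.id) (Primrec.const k)))).comp hP
  simp only [id, hw] at h2
  exact h2

end Pool.Agent.Helper15DD
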