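import Mathlib
import Pool.Agent.Helper15_DD.Codes
import Pool.Agent.Helper15_DD.Decode

/-!
# One step of the fusion
-/

set_option autoImplicit false

namespace Pool.Agent.Helper15DD

open MeasureTheory Pool.Agent.Helper25TD Pool.Agent.Helper56WN

/-! ### limits of strings -/

theorem getD_of_prefix {s t : List Bool} (h : s <+: t) {n : ℕ} (hn : n < s.length) :
    t.getD n false = s.getD n false := by
  obtain ⟨r, rfl⟩ := h
  exact List.getD_append _ _ _ _ hn

/-- the limit of an increasing sequence of strings -/
def lim (S : ℕ → List Bool) (n : ℕ) : Bool := (S (n + 1)).getD n false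

theorem prefix_of_le {S : ℕ → List Bool} (h : ∀ j, S j <+: S (j + 1)) {i j : ℕ} (hij : i ≤ j) :
    S i <+: S j := by
  induction hij with
  | refl => exact List.prefix_rfl
  | step _ ih => exact ih.trans (h _)

theorem init_lim {S : ℕ → List Bool} (h : ∀ j, S j <+: S (j + 1)) (hl : ∀ j, j ≤ (S j).length)
    (j : ℕ) : Init (S j) (lim S) := by
  intro n hn
  unfold lim
  rcases le_total j (n + 1) with h1 | h1
  · exact getD_of_prefix (prefix_of_le h h1) hn
  · exact (getD_of_prefix (prefix_of_le h h1) (hl (n + 1))).symm

/-- a map is continuous if each bit of the value depends on finitely many bits only -/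
theorem continuous_of_bits {f : (ℕ → Bool) → ℕ → Bool} (g : ℕ → ℕ)
    (h : ∀ n u v, (∀ j < g n, u j = v j) → f u n = f v n) : Continuous f := by
  refine continuous_pi fun n => ?_
  refine ((IsLocallyConstant.iff_exists_open _).2 fun u => ?_).continuous
  exact ⟨_, isOpen_cyl u (g n), fun _ _ => rfl, fun v hv => h n v u hv⟩

/-! ### plain strings -/

/-- the string of the plain symbols with bits `a` -/
def pl (a : List Bool) : List Bool := a.flatMap fun b => [false, b]

theorem length_pl (a : List Bool) : (pl a).length = 2 * a.length := by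
  induction a with
  | nil => rfl
  | cons b a ih =>
    have h1 : pl (b :: a) = false :: b :: pl a := rfl
    rw [h1, List.length_cons, List.length_cons, List.length_cons, ih]
    ring

theorem pl_getD (a : List Bool) (q : ℕ) :
    (pl a).getD (2 * q) false = false ∧ (pl a).getD (2 * q + 1) false = a.getD q false := by
  induction a generalizing q with
  | nil => exact ⟨rfl, rfl⟩
  | cons b a ih =>
    have h1 : pl (b :: a) = false :: b :: pl a := rfl
    rw [h1]
    cases q with
    | zero => exact ⟨rfl, rfl⟩
    | succ q => exact ih q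

theorem init_append_pl {σ : List Bool} {r : ℕ → Bool} (h : Init σ r)
    (hr : ∀ q, r (σ.length + 2 * q) = false) (k : ℕ) :
    Init (σ ++ pl ((List.range k).map fun q => r (σ.length + 2 * q + 1))) r := by
  intro n hn
  rw [List.length_append, length_pl, List.length_map, List.length_range] at hn
  by_cases hn' : n < σ.length
  · rw [List.getD_append _ _ _ _ hn']
    exact h n hn'
  · rw [List.getD_append_right _ _ _ _ (not_lt.1 hn')]
    obtain ⟨q, hq⟩ := Nat.even_or_odd' (n - σ.length)
    rcases hq with hq | hq
    · rw [hq, (pl_getD _ q).1]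
      have h1 : n = σ.length + 2 * q := by omega
      rw [h1]
      exact hr q
    · rw [hq, (pl_getD _ q).2]
      have h1 : n = σ.length + 2 * q + 1 := by omega
      have h2 : q < k := by omega
      rw [h1]
      simp [List.getD_eq_getElem?_getD, h2]

/-! ### forcing -/

/-- all `H v` with `v` extending `σ` have the value `1` at `l` -/
def Forces (H : (ℕ → Bool) → (ℕ → Bool)) (e : OCode) (σ : List Bool) (l : ℕ) : Prop :=
  ∀ v, Init σ v → H v ∈ U e l true

/-- the set of all `x` that are not excluded from the `i`-th closed set by a plain extension of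
`σ` -/
def Dd (H : (ℕ → Bool) → (ℕ → Bool)) (e : OCode) (σ : List Bool) (i : ℕ) : Set (ℕ → Bool) :=
  {x | ∀ s : List Bool, Init s x → ∀ a, ¬ Forces H e (σ ++ pl a) (Nat.pair i (Encodable.encode s))}

theorem isClosed_Dd (H : (ℕ → Bool) → (ℕ → Bool)) (e : OCode) (σ : List Bool) (i : ℕ) :
    IsClosed (Dd H e σ i) := by
  classical
  have h1 : Dd H e σ i =
      Clo (fun m => decide (∃ a, Forces H e (σ ++ pl a) (Nat.pair i m.unpair.2))) 0 := by
    ext x
    refine forall₂_congr fun s _ => ?_
    rw [decide_eq_false_iff_not, not_exists, Nat.unpair_pair]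
  rw [h1]
  exact isClosed_Clo _ _

/-- the closed set contained in the `i`-th closed sets of all plain extensions -/
theorem Dd_subset {H : (ℕ → Bool) → (ℕ → Bool)} (hH : Continuous H) {e : OCode} {σ : List Bool}
    (i : ℕ) {r c : ℕ → Bool} (h : Init σ r) (hr : ∀ q, r (σ.length + 2 * q) = false)
    (hc : ∀ l, H r ∈ U e l (c l)) : Dd H e σ i ⊆ Clo c i := by
  intro x hx s hs
  by_contra hcs
  have h1 : c (Nat.pair i (Encodable.encode s)) = true := by simpa using hcs
  have h2 := hc (Nat.pair i (Encodable.encode s))
  rw [h1] at h2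
  obtain ⟨m, hm⟩ := exists_pre ((isOpen_U e _ true).preimage hH) (x := r) h2
  refine hx s hs ((List.range m).map fun q => r (σ.length + 2 * q + 1)) fun v hv => ?_
  refine hm m le_rfl v fun n hn => ?_
  have hn' : n < m := by simpa [pre] using hn
  have h3 := init_append_pl h hr m
  have h4 : n < (σ ++ pl ((List.range m).map fun q => r (σ.length + 2 * q + 1))).length := by
    rw [List.length_append, length_pl, List.length_map, List.length_range]
    omega
  rw [hv n h4, ← h3 n h4]
  simp [pre, List.getD_eq_getElem?_getD, hn']

/-! ### the first coding -/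

/-- `σ` followed by the plain symbols with the bits `w 0, u 0, w 1, u 1, …` -/
def kapA (σ : List Bool) (w u : ℕ → Bool) (n : ℕ) : Bool :=
  if n < σ.length then σ.getD n false
  else if (n - σ.length) % 2 = 0 then false
  else if (n - σ.length) % 4 = 1 then w ((n - σ.length) / 4) else u ((n - σ.length) / 4)

theorem kapA_init (σ : List Bool) (w u : ℕ → Bool) : Init σ (kapA σ w u) := fun n hn => by
  unfold kapA
  rw [if_pos hn]

theorem kapA_even (σ : List Bool) (w u : ℕ → Bool) (q : ℕ) :
    kapA σ w u (σ.length + 2 * q) = false := by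
  unfold kapA
  rw [if_neg (by omega), if_pos (by omega)]

theorem kapA_w (σ : List Bool) (w u : ℕ → Bool) (j : ℕ) :
    kapA σ w u (σ.length + 4 * j + 1) = w j := by
  unfold kapA
  rw [if_neg (by omega), if_neg (by omega), if_pos (by omega)]
  congr 1
  omega

theorem kapA_u (σ : List Bool) (w u : ℕ → Bool) (j : ℕ) :
    kapA σ w u (σ.length + 4 * j + 3) = u j := by
  unfold kapA
  rw [if_neg (by omega), if_neg (by omega), if_neg (by omega)]
  congr 1
  omega

theorem tle_kapA (σ : List Bool) (w u : ℕ → Bool) :
    TLE w (kapA σ w u) ∧ TLE u (kapA σ w u) := by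
  constructor
  · have h1 : Primrec fun j : ℕ => σ.length + 4 * j + 1 :=
      Primrec.succ.comp (Primrec.nat_add.comp (Primrec.const σ.length)
        (Primrec.nat_mul.comp (Primrec.const 4) Primrec.id))
    have h2 := TLE.sub (x := kapA σ w u) h1
    simp only [kapA_w] at h2
    exact h2
  · have h1 : Primrec fun j : ℕ => σ.length + 4 * j + 3 :=
      Primrec.succ.comp (Primrec.succ.comp (Primrec.succ.comp
        (Primrec.nat_add.comp (Primrec.const σ.length)
          (Primrec.nat_mul.comp (Primrec.const 4) Primrec.id))))
    have h2 := TLE.sub (x := kapA σ w u) h1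
    simp only [kapA_u] at h2
    exact h2

theorem continuous_kapA (σ : List Bool) (w : ℕ → Bool) : Continuous (kapA σ w) := by
  refine continuous_of_bits (fun n => n + 1) fun n u v h => ?_
  unfold kapA
  split_ifs
  · rfl
  · rfl
  · rfl
  · exact h _ (by omega)

/-! ### the second coding -/

/-- the strings of the second coding: plain blocks given by `A`, separated by flagged symbols with
the bits of `w`, each followed by a plain symbol with a bit of `u` -/
def st (A : List Bool → ℕ → List Bool) (w u : ℕ → Bool) : ℕ → List Bool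
  | 0 => []
  | j + 1 => st A w u j ++ pl (A (st A w u j) j) ++ [true, w j, false, u j]

variable (A : List Bool → ℕ → List Bool) (w u : ℕ → Bool)

theorem st_succ (j : ℕ) : st A w u (j + 1) =
    st A w u j ++ pl (A (st A w u j) j) ++ [true, w j, false, u j] := rfl

theorem st_prefix (j : ℕ) : st A w u j <+: st A w u (j + 1) := by
  rw [st_succ, List.append_assoc]
  exact List.prefix_append _ _

theorem length_st_succ (j : ℕ) : (st A w u (j + 1)).length =
    (st A w u j).length + 2 * (A (st A w u j) j).length + 4 := by
  rw [st_succ, List.length_append, List.length_append, length_pl]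
  rfl

theorem le_length_st (j : ℕ) : j ≤ (st A w u j).length := by
  induction j with
  | zero => exact Nat.zero_le _
  | succ j ih =>
    rw [length_st_succ]
    omega

theorem even_length_st (j : ℕ) : (st A w u j).length % 2 = 0 := by
  induction j with
  | zero => rfl
  | succ j ih =>
    rw [length_st_succ]
    omega

/-- the real of the second coding -/
def kapB : ℕ → Bool := lim (st A w u)

theorem kapB_init (j : ℕ) : Init (st A w u j) (kapB A w u) :=
  init_lim (st_prefix A w u) (le_length_st A w u) j

/-- the position of the `j`-th flagged symbol -/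
def ps (j : ℕ) : ℕ := (st A w u j).length / 2 + (A (st A w u j) j).length

theorem ps_length (j : ℕ) : (st A w u j).length + 2 * (A (st A w u j) j).length =
    2 * ps A w u j := by
  have h1 := even_length_st A w u j
  unfold ps
  omega

theorem length_succ (j : ℕ) : (st A w u (j + 1)).length = 2 * ps A w u j + 4 := by
  rw [length_st_succ, ps_length]

theorem ps_lt (j : ℕ) : ps A w u j < ps A w u (j + 1) := by
  have h1 := length_succ A w u j
  unfold ps at h1 ⊢
  omega

/-- the value at a place of the last block -/
theorem kapB_last (j k : ℕ) (hk : k < 4) :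
    kapB A w u (2 * ps A w u j + k) = [true, w j, false, u j].getD k false := by
  have h1 := kapB_init A w u (j + 1) (2 * ps A w u j + k) (by rw [length_succ]; omega)
  rw [h1, st_succ, List.getD_append_right _ _ _ _ (by
    rw [List.length_append, length_pl, ps_length]
    omega)]
  congr 1
  rw [List.length_append, length_pl, ps_length]
  omega

/-- the flag of a symbol of the plain block -/
theorem kapB_plain (j p : ℕ) (h1 : (st A w u j).length ≤ 2 * p) (h2 : p < ps A w u j) :
    kapB A w u (2 * p) = false := by
  have h3 := kapB_init A w u (j + 1) (2 * p) (by rw [length_succ]; omega)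
  have h4 := even_length_st A w u j
  have h5 := ps_length A w u j
  rw [h3, st_succ, List.getD_append _ _ _ _ (by
    rw [List.length_append, length_pl]
    omega), List.getD_append_right _ _ _ _ h1]
  have h6 : 2 * p - (st A w u j).length = 2 * (p - (st A w u j).length / 2) := by omega
  rw [h6, (pl_getD _ _).1]

theorem tr_ps : TR (kapB A w u) (ps A w u) := by
  refine TR.positions (fun p hp => kapB_plain A w u 0 p (Nat.zero_le _) hp)
    (fun j => kapB_last A w u j 0 (by omega)) (fun j p h1 h2 => ?_) (ps_lt A w u)
  rcases Nat.lt_or_ge (ps A w u j + 1) p with h3 | h3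
  · refine kapB_plain A w u (j + 1) p ?_ h2
    rw [length_succ]
    omega
  · have h4 : p = ps A w u j + 1 := by omega
    subst h4
    exact kapB_last A w u j 2 (by omega)

theorem tle_kapB : TLE w (kapB A w u) ∧ TLE u (kapB A w u) :=
  ⟨TLE.of_positions (tr_ps A w u) 1 fun j => kapB_last A w u j 1 (by omega),
    TLE.of_positions (tr_ps A w u) 3 fun j => kapB_last A w u j 3 (by omega)⟩

theorem st_congr {u v : ℕ → Bool} {n : ℕ} (h : ∀ j < n, u j = v j) :
    st A w u n = st A w v n := by
  induction n with
  | zero => rfl
  | succ n ih =>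
    rw [st_succ, st_succ, ih fun j hj => h j (hj.trans (Nat.lt_succ_self n)),
      h n (Nat.lt_succ_self n)]

theorem continuous_kapB : Continuous (kapB A w) := by
  refine continuous_of_bits (fun n => n + 1) fun n u v h => ?_
  unfold kapB lim
  rw [st_congr A w h]

/-! ### the step -/

variable {CC : Set (Set (ℕ → Bool))} {E : Set (ℕ → Bool)}

theorem exists_step (hC : Hereditary CC) (hE : ¬ Small CC E) {H : (ℕ → Bool) → (ℕ → Bool)}
    (hH : Continuous H) (e : OCode) (z : ℕ → Bool) :
    ∃ x ∈ E, ∃ κ : (ℕ → Bool) → (ℕ → Bool), Continuous κ ∧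
      (∀ u, TLE u (κ u) ∧ TLE x (κ u) ∧ TLE z (κ u)) ∧
      ∀ u c, (∀ l, H (κ u) ∈ U e l (c l)) → (∀ i, Clo c i ∈ CC) → ∀ i, x ∉ Clo c i := by
  obtain ⟨x, hxE, hx⟩ := exists_notMem hC hE fun p : List Bool × ℕ => Dd H e p.1 p.2
  refine ⟨x, hxE, ?_⟩
  have hw1 : TLE x (Pool.Agent.Helper25TD.join x z) := TLE.join_left _ _
  have hw2 : TLE z (Pool.Agent.Helper25TD.join x z) := TLE.join_right _ _
  by_cases h : ∃ σ i, x ∈ Dd H e σ i
  · obtain ⟨σ, i, hxD⟩ := h
    refine ⟨kapA σ (Pool.Agent.Helper25TD.join x z), continuous_kapA _ _, fun u => ?_, ?_⟩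
    · obtain ⟨h1, h2⟩ := tle_kapA σ (Pool.Agent.Helper25TD.join x z) u
      exact ⟨h2, hw1.trans h1, hw2.trans h1⟩
    · intro u c hc hcC
      exfalso
      refine hx (σ, i) (hC.mono _ (hcC i) _ ?_ (isClosed_Dd H e σ i)) hxD
      exact Dd_subset hH i (kapA_init _ _ _) (kapA_even _ _ _) hc
  · push Not at h
    have h' : ∀ σ i, ∃ a, ∃ s : List Bool, Init s x ∧
        Forces H e (σ ++ pl a) (Nat.pair i (Encodable.encode s)) := by
      intro σ i
      have h1 := h σ i
      unfold Dd at h1
      simp only [Set.mem_setOf_eq, not_forall, not_not] at h1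
      obtain ⟨s, hs, a, ha⟩ := h1
      exact ⟨a, s, hs, ha⟩
    choose A S hA1 hA2 using h'
    refine ⟨kapB A (Pool.Agent.Helper25TD.join x z), continuous_kapB _ _, fun u => ?_, ?_⟩
    · obtain ⟨h1, h2⟩ := tle_kapB A (Pool.Agent.Helper25TD.join x z) u
      exact ⟨h2, hw1.trans h1, hw2.trans h1⟩
    · intro u c hc _ i hxi
      have h1 := hA2 (st A (Pool.Agent.Helper25TD.join x z) u i) i
        (kapB A (Pool.Agent.Helper25TD.join x z) u) (fun n hn => by
          have h2 := kapB_init A (Pool.Agent.Helper25TD.join x z) u (i + 1) n (by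
            rw [st_succ, List.length_append]
            omega)
          rw [h2, st_succ, List.getD_append _ _ _ _ hn])
      have h3 := hc (Nat.pair i (Encodable.encode (S (st A (Pool.Agent.Helper25TD.join x z) u i) i)))
      rw [hxi _ (hA1 _ i)] at h3
      exact disjoint_U _ _ _ ⟨h1, h3⟩

end Pool.Agent.Helper15DD
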