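import Mathlib
import Pool.Agent.Helper15_DD.Step
import Pool.Agent.Helper56_TB.Games

/-!
# The fusion
-/

set_option autoImplicit false

namespace Pool.Agent.Helper15DD

open MeasureTheory Pool.Agent.Helper25TD Pool.Agent.Helper56WN

/-- the inverse limit of a sequence of continuous maps of Cantor space is not empty -/
theorem exists_chain {κ : ℕ → (ℕ → Bool) → (ℕ → Bool)} (hκ : ∀ n, Continuous (κ n)) :
    ∃ u : ℕ → (ℕ → Bool), ∀ n, u n = κ n (u (n + 1)) := by
  let K : ℕ → Set (ℕ → (ℕ → Bool)) := fun N => {u | ∀ n < N, u n = κ n (u (n + 1))}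
  have hK : ∀ N, IsClosed (K N) := by
    intro N
    have h1 : K N = ⋂ n ∈ Finset.range N, {u : ℕ → (ℕ → Bool) | u n = κ n (u (n + 1))} := by
      ext u
      simp [K]
    rw [h1]
    exact isClosed_biInter fun n _ => isClosed_eq (continuous_apply n)
      ((hκ n).comp (continuous_apply (n + 1)))
  have hne : ∀ N, (K N).Nonempty := by
    intro N
    let v : ℕ → (ℕ → Bool) := fun k => Nat.rec (fun _ => false) (fun k x => κ (N - 1 - k) x) k
    have hv : ∀ k, v (k + 1) = κ (N - 1 - k) (v k) := fun k => rfl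
    refine ⟨fun n => v (N - n), fun n hn => ?_⟩
    change v (N - n) = κ n (v (N - (n + 1)))
    have h1 : N - n = (N - (n + 1)) + 1 := by omega
    rw [h1, hv]
    congr 1
    omega
  have hanti : ∀ N, K (N + 1) ⊆ K N := fun N u hu n hn => hu n (hn.trans (Nat.lt_succ_self N))
  obtain ⟨u, hu⟩ := IsCompact.nonempty_iInter_of_sequence_nonempty_isCompact_isClosed K hanti hne
    (hK 0).isCompact hK
  exact ⟨u, fun n => Set.mem_iInter.1 hu (n + 1) n (Nat.lt_succ_self n)⟩

variable {CC : Set (Set (ℕ → Bool))} {E : Set (ℕ → Bool)}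

/-- If `E` is not covered by countably many members of `CC`, then the complement of `Vs CC E`
meets every cone. -/
theorem exists_notMem_Vs (hC : Hereditary CC) (hE : ¬ Small CC E) (z : ℕ → Bool) :
    ∃ t, TLE z t ∧ t ∉ Vs CC E := by
  obtain ⟨ee, hee⟩ := exists_surjective_nat OCode
  have step : ∀ (H : {H : (ℕ → Bool) → (ℕ → Bool) // Continuous H}) (n : ℕ),
      ∃ x ∈ E, ∃ κ : (ℕ → Bool) → (ℕ → Bool), Continuous κ ∧
        (∀ u, TLE u (κ u) ∧ TLE x (κ u) ∧ TLE z (κ u)) ∧
        ∀ u c, (∀ l, H.1 (κ u) ∈ U (ee n) l (c l)) → (∀ i, Clo c i ∈ CC) → ∀ i, x ∉ Clo c i :=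
    fun H n => exists_step hC hE H.2 (ee n) z
  choose X hXE κ hκ hT hκc using step
  let G : ℕ → {H : (ℕ → Bool) → (ℕ → Bool) // Continuous H} := fun n =>
    Nat.rec ⟨id, continuous_id⟩ (fun n H => ⟨H.1 ∘ κ H n, H.2.comp (hκ H n)⟩) n
  have hG : ∀ n, (G (n + 1)).1 = (G n).1 ∘ κ (G n) n := fun n => rfl
  obtain ⟨u, hu⟩ := exists_chain (κ := fun n => κ (G n) n) fun n => hκ (G n) n
  have hGu : ∀ n, (G n).1 (u n) = u 0 := by
    intro n
    induction n with
    | zero => rfl
    | succ n ih =>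
      rw [hG]
      change (G n).1 (κ (G n) n (u (n + 1))) = u 0
      rw [← hu n]
      exact ih
  have hle : ∀ n, TLE (u (n + 1)) (u n) ∧ TLE (X (G n) n) (u n) ∧ TLE z (u n) := by
    intro n
    have h1 := hT (G n) n (u (n + 1))
    rw [← hu n] at h1
    exact h1
  have hle0 : ∀ n, TLE (u n) (u 0) := by
    intro n
    induction n with
    | zero => exact TLE.refl _
    | succ n ih => exact (hle n).1.trans ih
  refine ⟨u 0, (hle 0).2.2, ?_⟩
  rintro ⟨c, hc, hcC, hcov⟩
  obtain ⟨e, he⟩ := exists_U hc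
  obtain ⟨n, rfl⟩ := hee e
  have h1 : ∀ i, X (G n) n ∉ Clo c i := by
    refine hκc (G n) n (u (n + 1)) c (fun l => ?_) hcC
    have h2 := hGu n
    rw [hu n] at h2
    rw [h2]
    exact he l
  obtain ⟨i, hi⟩ := hcov _ (hXE (G n) n) ((hle n).2.1.trans (hle0 n))
  exact h1 i hi

/-- Player I wins if and only if `E` is small. -/
theorem winsI_Vs_iff (hC : Hereditary CC) (E : Set (ℕ → Bool)) :
    WinsI (Vs CC E) ↔ Small CC E := by
  constructor
  · intro h
    by_contra hE
    obtain ⟨z, hz⟩ := Pool.Agent.Helper56TB.cone_of_winsI (turingInvariant_Vs CC E) h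
    obtain ⟨t, ht, ht'⟩ := exists_notMem_Vs hC hE z
    exact ht' (hz t ht)
  · intro hE
    obtain ⟨c, hc1, hc2⟩ := hE.exists_code hC
    exact Pool.Agent.Helper56TB.winsI_of_cone (z := c) fun y hy =>
      ⟨c, hy, hc1, fun x hx _ => Set.mem_iUnion.1 (hc2 hx)⟩

end Pool.Agent.Helper15DD
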