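import Mathlib
import Pool.Agent.Helper15_DD.Codes
import Pool.Agent.Helper15_TD.Closure
import Pool.Agent.Helper25_TD.Oracle

/-!
# Enumerations of countable families of codes
-/

set_option autoImplicit false

namespace Pool.Agent.Helper15DD

open MeasureTheory Filter Topology Pool.Agent.Helper25TD Pool.Agent.Helper56WN

variable {CC : Set (Set (ℕ → Bool))} {E : Set (ℕ → Bool)} {z : ℕ → Bool}

/-- the combination of a sequence of codes -/
def comb (η : ℕ → (ℕ → Bool)) (n : ℕ) : Bool :=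
  η n.unpair.1.unpair.1 (Nat.pair n.unpair.1.unpair.2 n.unpair.2)

theorem Clo_comb (η : ℕ → (ℕ → Bool)) (m : ℕ) :
    Clo (comb η) m = Clo (η m.unpair.1) m.unpair.2 := by
  ext x
  refine forall₂_congr fun s _ => ?_
  unfold comb
  rw [Nat.unpair_pair]

/-- the join of `z` and the combination of `η` -/
noncomputable def yy (z : ℕ → Bool) (η : ℕ → (ℕ → Bool)) : ℕ → Bool :=
  Pool.Agent.Helper25TD.join z (comb η)

/-- agreement of the first `N` entries of the first `N` rows -/
def Agr (N : ℕ) (η η' : ℕ → (ℕ → Bool)) : Prop := ∀ i < N, ∀ j < N, η i j = η' i j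

theorem exists_agr_comb (M : ℕ) : ∃ N, ∀ η η', Agr N η η' → ∀ j < M, comb η j = comb η' j := by
  refine ⟨(Finset.range M).sup fun n => max n.unpair.1.unpair.1
    (Nat.pair n.unpair.1.unpair.2 n.unpair.2) + 1, fun η η' h j hj => ?_⟩
  have h1 := Finset.le_sup (f := fun n : ℕ => max n.unpair.1.unpair.1
    (Nat.pair n.unpair.1.unpair.2 n.unpair.2) + 1) (Finset.mem_range.2 hj)
  exact h _ (lt_of_le_of_lt (le_max_left _ _) (Nat.lt_of_succ_le h1)) _
    (lt_of_le_of_lt (le_max_right _ _) (Nat.lt_of_succ_le h1))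

theorem exists_agr_yy (z : ℕ → Bool) (M : ℕ) :
    ∃ N, ∀ η η', Agr N η η' → ∀ j < M, yy z η j = yy z η' j := by
  classical
  obtain ⟨N, hN⟩ := exists_agr_comb M
  refine ⟨N, fun η η' h j hj => ?_⟩
  unfold yy Pool.Agent.Helper25TD.join
  split_ifs
  · rfl
  · exact hN η η' h _ (by omega)

/-- the possible values of the functional `e` at `yy z η`, where `η` agrees with `η0` below `n` -/
def Pos (z : ℕ → Bool) (e : OCode) (η0 : ℕ → (ℕ → Bool)) (n : ℕ) : Set (ℕ → Bool) :=
  {x | ∀ m, ∃ η : ℕ → (ℕ → Bool), (∀ i < n, η i = η0 i) ∧ ∀ l < m, yy z η ∈ U e l (x l)}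

theorem Pos_congr (z : ℕ → Bool) (e : OCode) {η0 η1 : ℕ → (ℕ → Bool)} {n : ℕ}
    (h : ∀ i < n, η0 i = η1 i) : Pos z e η0 n = Pos z e η1 n := by
  ext x
  unfold Pos
  simp only [Set.mem_setOf_eq]
  refine forall_congr' fun m => exists_congr fun η => and_congr_left fun _ => ?_
  exact forall₂_congr fun i hi => by rw [h i hi]

theorem isClosed_Pos (z : ℕ → Bool) (e : OCode) (η0 : ℕ → (ℕ → Bool)) (n : ℕ) :
    IsClosed (Pos z e η0 n) := by
  rw [← isOpen_compl_iff, isOpen_iff_forall_mem_open]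
  intro x hx
  have hx' : ∃ m, ∀ η : ℕ → (ℕ → Bool), (∀ i < n, η i = η0 i) → ∃ l < m, yy z η ∉ U e l (x l) := by
    by_contra hcon
    push Not at hcon
    exact hx hcon
  obtain ⟨m, hm⟩ := hx'
  refine ⟨{β | ∀ j < m, β j = x j}, ?_, isOpen_cyl x m, fun _ _ => rfl⟩
  intro y hy hyP
  obtain ⟨η, hη, h⟩ := hyP m
  obtain ⟨l, hl, hne⟩ := hm η hη
  apply hne
  rw [← hy l hl]
  exact h l hl

/-- finitely many values of a functional are decided by finitely many entries -/
theorem exists_agr (z : ℕ → Bool) (e : OCode) {η : ℕ → (ℕ → Bool)} {x : ℕ → Bool} {m : ℕ}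
    (h : ∀ l < m, yy z η ∈ U e l (x l)) :
    ∃ N, ∀ η', Agr N η η' → ∀ l < m, yy z η' ∈ U e l (x l) := by
  have h1 : IsOpen (⋂ l ∈ Finset.range m, U e l (x l)) :=
    isOpen_biInter_finset fun l _ => isOpen_U e l (x l)
  obtain ⟨M, hM⟩ := exists_cyl h1 (Set.mem_iInter₂.2 fun l hl => h l (Finset.mem_range.1 hl))
  obtain ⟨N, hN⟩ := exists_agr_yy z M
  refine ⟨N, fun η' hη' l hl => ?_⟩
  have h2 := hM (yy z η') fun j hj => (hN η η' hη' j hj).symm
  exact Set.mem_iInter₂.1 h2 l (Finset.mem_range.2 hl)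

/-! ### the family of letters -/

/-- a valid code that covers `S` if `S` is small -/
noncomputable def cvt (CC : Set (Set (ℕ → Bool))) (S : Set (ℕ → Bool)) : ℕ → Bool := by
  classical
  exact if h : ∃ c, (∀ i, Clo c i ∈ CC) ∧ S ⊆ ⋃ i, Clo c i then h.choose else fun _ => true

theorem Clo_of_true {c : ℕ → Bool} {N : ℕ} (h : ∀ n ≥ N, c n = true) (i : ℕ) : Clo c i = ∅ := by
  refine Set.eq_empty_iff_forall_notMem.2 fun x hx => ?_
  have h1 : ∃ m, N ≤ Nat.pair i (Encodable.encode (pre x m)) := by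
    by_contra hcon
    push Not at hcon
    have hinj : Function.Injective fun m => Nat.pair i (Encodable.encode (pre x m)) := by
      intro m m' hmm
      have h2 := congrArg (fun n => (Nat.unpair n).2) hmm
      simp only [Nat.unpair_pair] at h2
      have h3 := congrArg List.length (Encodable.encode_injective h2)
      simpa [pre] using h3
    exact (Set.infinite_range_of_injective hinj) ((Set.finite_Iio N).subset (by
      rintro _ ⟨m, rfl⟩
      exact hcon m))
  obtain ⟨m, hm⟩ := h1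
  have h2 := hx (pre x m) (init_pre x m)
  rw [h _ hm] at h2
  exact absurd h2 (by simp)

theorem cvt_mem (hC : Hereditary CC) (S : Set (ℕ → Bool)) (i : ℕ) : Clo (cvt CC S) i ∈ CC := by
  classical
  unfold cvt
  by_cases h : ∃ c, (∀ i, Clo c i ∈ CC) ∧ S ⊆ ⋃ i, Clo c i
  · rw [dif_pos h]
    exact h.choose_spec.1 i
  · rw [dif_neg h, Clo_of_true (N := 0) fun _ _ => rfl]
    exact hC.empty

theorem subset_cvt (hC : Hereditary CC) {S : Set (ℕ → Bool)} (h : Small CC S) :
    S ⊆ ⋃ i, Clo (cvt CC S) i := by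
  classical
  have h1 := h.exists_code hC
  unfold cvt
  rw [dif_pos h1]
  exact h1.choose_spec.2

/-- a countable family of valid codes that contains extensions of all finite sequences and the
covering codes of all small sets of possible values -/
structure Letters (CC : Set (Set (ℕ → Bool))) (E : Set (ℕ → Bool)) (z : ℕ → Bool)
    (a : ℕ → (ℕ → Bool)) : Prop where
  valid : ∀ i k, Clo (a i) k ∈ CC
  fin : ∀ (c : ℕ → Bool) (N : ℕ), ∃ i, ∀ j < N, a i j = c j
  cov : ∀ (e : OCode) (s : ℕ → ℕ) (n : ℕ),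
    ∃ i, a i = cvt CC (E ∩ Pos z e (fun j => a (s j)) n)

theorem exists_letters (hC : Hereditary CC) (E : Set (ℕ → Bool)) (z : ℕ → Bool) :
    ∃ a : ℕ → (ℕ → Bool), Letters CC E z a := by
  let S0 : Set (ℕ → Bool) := Set.range fun (L : List Bool) (j : ℕ) => L.getD j true
  obtain ⟨A0, h1, h2, h3⟩ := Pool.Agent.Helper15TD.exists_closure (I := OCode)
    (fun e (l : List (ℕ → Bool)) =>
      cvt CC (E ∩ Pos z e (fun i => l.getD i fun _ => false) l.length))
    (S0 := S0) (Set.countable_range _)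
  -- only valid codes are kept
  let A : Set (ℕ → Bool) := {c ∈ A0 | ∀ k, Clo c k ∈ CC}
  have hA : A.Countable := h1.mono fun _ h => h.1
  have hA2 : ∀ L : List Bool, (fun j : ℕ => L.getD j true) ∈ A := by
    intro L
    refine ⟨h2 ⟨L, rfl⟩, fun k => ?_⟩
    rw [Clo_of_true (N := L.length) fun n hn => by
      simp [List.getD_eq_getElem?_getD, hn]]
    exact hC.empty
  have hA3 : ∀ (e : OCode) (l : List (ℕ → Bool)), (∀ x ∈ l, x ∈ A) →
      cvt CC (E ∩ Pos z e (fun i => l.getD i fun _ => false) l.length) ∈ A := fun e l hl =>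
    ⟨h3 e l fun x hx => (hl x hx).1, cvt_mem hC _⟩
  obtain ⟨a, ha⟩ := hA.exists_eq_range ⟨_, hA2 []⟩
  refine ⟨a, fun i => ?_, fun c N => ?_, fun e s n => ?_⟩
  · have h4 : a i ∈ A := by
      rw [ha]
      exact Set.mem_range_self i
    exact h4.2
  · have h4 := hA2 ((List.range N).map c)
    rw [ha] at h4
    obtain ⟨i, hi⟩ := h4
    refine ⟨i, fun j hj => ?_⟩
    rw [hi]
    simp [List.getD_eq_getElem?_getD, hj]
  · have h4 := hA3 e ((List.range n).map fun j => a (s j)) (fun x hx => by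
      obtain ⟨j, -, rfl⟩ := List.mem_map.1 hx
      rw [ha]
      exact Set.mem_range_self _)
    rw [ha] at h4
    obtain ⟨i, hi⟩ := h4
    refine ⟨i, hi.trans ?_⟩
    have h5 : Pos z e (fun i => ((List.range n).map fun j => a (s j)).getD i fun _ => false)
        ((List.range n).map fun j => a (s j)).length = Pos z e (fun j => a (s j)) n := by
      rw [List.length_map, List.length_range]
      refine Pos_congr z e fun i hi => ?_
      simp [List.getD_eq_getElem?_getD, hi]
    simp only [h5]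

end Pool.Agent.Helper15DD
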