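import Mathlib
import Pool.Agent.Helper15_DD.Letters
import Pool.Agent.Helper15_DD.Fusion

/-!
# Closed covers of sets that are not small
-/

set_option autoImplicit false

namespace Pool.Agent.Helper15DD

open MeasureTheory Filter Topology Pool.Agent.Helper25TD Pool.Agent.Helper56WN

variable {CC : Set (Set (ℕ → Bool))} {E : Set (ℕ → Bool)} {z : ℕ → Bool} {a : ℕ → (ℕ → Bool)}

/-- `yy z η` computes the combination of `η` -/
theorem tle_comb (z : ℕ → Bool) (η : ℕ → (ℕ → Bool)) : TLE (comb η) (yy z η) :=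
  TLE.join_right _ _

theorem tle_left (z : ℕ → Bool) (η : ℕ → (ℕ → Bool)) : TLE z (yy z η) := TLE.join_left _ _

/-- sequences `h` of indices such that the value of `e` is forced into `V` -/
def On (z : ℕ → Bool) (a : ℕ → (ℕ → Bool)) (V : Set (ℕ → Bool)) (e : OCode) : Set (ℕ → ℕ) :=
  {h | ∃ (x : ℕ → Bool) (m N : ℕ),
    (∀ η, Agr N (fun i => a (h i)) η → ∀ l < m, yy z η ∈ U e l (x l)) ∧
    ∀ x', (∀ l < m, x' l = x l) → x' ∈ V}

/-- sequences `h` of indices such that the value of `e` is confined to a small part of `E` -/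
def Zn (CC : Set (Set (ℕ → Bool))) (E : Set (ℕ → Bool)) (z : ℕ → Bool) (a : ℕ → (ℕ → Bool))
    (e : OCode) : Set (ℕ → ℕ) :=
  {h | ∃ n, Small CC (E ∩ Pos z e (fun i => a (h i)) n)}

theorem isOpen_cylN (h : ℕ → ℕ) (N : ℕ) : IsOpen {g : ℕ → ℕ | ∀ i < N, g i = h i} := by
  have h1 : {g : ℕ → ℕ | ∀ i < N, g i = h i} =
      ⋂ i ∈ Finset.range N, (fun g : ℕ → ℕ => g i) ⁻¹' {h i} := by
    ext g
    simp
  rw [h1]
  exact isOpen_biInter_finset fun i _ => (isOpen_discrete _).preimage (continuous_apply i)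

theorem isOpen_of_cylN {O : Set (ℕ → ℕ)}
    (hO : ∀ h ∈ O, ∃ N, ∀ g : ℕ → ℕ, (∀ i < N, g i = h i) → g ∈ O) : IsOpen O := by
  rw [isOpen_iff_forall_mem_open]
  intro h hh
  obtain ⟨N, hN⟩ := hO h hh
  exact ⟨_, fun g hg => hN g hg, isOpen_cylN h N, fun _ _ => rfl⟩

theorem dense_of_cylN {O : Set (ℕ → ℕ)}
    (hO : ∀ (h : ℕ → ℕ) (N : ℕ), ∃ g ∈ O, ∀ i < N, g i = h i) : Dense O := by
  rw [dense_iff_inter_open]
  rintro V hV ⟨h, hh⟩
  rw [isOpen_pi_iff] at hV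
  obtain ⟨I, u, hu, huV⟩ := hV h hh
  obtain ⟨g, hg, hgh⟩ := hO h (I.sup id + 1)
  refine ⟨g, huV fun i hi => ?_, hg⟩
  have h1 : i ≤ I.sup id := Finset.le_sup (f := id) (Finset.mem_coe.1 hi)
  rw [hgh i (by omega)]
  exact (hu i (Finset.mem_coe.1 hi)).2

theorem isOpen_On (z : ℕ → Bool) (a : ℕ → (ℕ → Bool)) (V : Set (ℕ → Bool)) (e : OCode) :
    IsOpen (On z a V e) := by
  refine isOpen_of_cylN ?_
  rintro h ⟨x, m, N, h1, h2⟩
  refine ⟨N, fun g hg => ⟨x, m, N, fun η hη => h1 η fun i hi j hj => ?_, h2⟩⟩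
  rw [← hη i hi j hj]
  simp only [hg i hi]

theorem isOpen_Zn (CC : Set (Set (ℕ → Bool))) (E : Set (ℕ → Bool)) (z : ℕ → Bool)
    (a : ℕ → (ℕ → Bool)) (e : OCode) : IsOpen (Zn CC E z a e) := by
  refine isOpen_of_cylN ?_
  rintro h ⟨n, hn⟩
  refine ⟨n, fun g hg => ⟨n, ?_⟩⟩
  rwa [Pos_congr z e (η1 := fun i => a (h i)) fun i hi => by simp only [hg i hi]]

/-- the sets of possible values that are not small meet `V` -/
def Meet (CC : Set (Set (ℕ → Bool))) (E : Set (ℕ → Bool)) (z : ℕ → Bool) (a : ℕ → (ℕ → Bool))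
    (V : Set (ℕ → Bool)) : Prop :=
  ∀ (e : OCode) (s : ℕ → ℕ) (n : ℕ), ¬ Small CC (E ∩ Pos z e (fun i => a (s i)) n) →
    (Pos z e (fun i => a (s i)) n ∩ V).Nonempty

theorem dense_On (ha : Letters CC E z a) {V : Set (ℕ → Bool)} (hV : IsOpen V)
    (hw : Meet CC E z a V) (e : OCode) : Dense (On z a V e ∪ Zn CC E z a e) := by
  refine dense_of_cylN fun h n => ?_
  by_cases h0 : Small CC (E ∩ Pos z e (fun i => a (h i)) n)
  · exact ⟨h, Or.inr ⟨n, h0⟩, fun _ _ => rfl⟩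
  · obtain ⟨x, hxP, hxV⟩ := hw e h n h0
    obtain ⟨m, hm⟩ := exists_cyl hV hxV
    obtain ⟨η, hη, hηx⟩ := hxP m
    obtain ⟨N, hN⟩ := exists_agr z e hηx
    have h1 : ∀ i, ∃ j, ∀ l < N, a j l = η i l := fun i => ha.fin (η i) N
    choose b hb using h1
    refine ⟨fun i => if i < n then h i else b i, Or.inl ⟨x, m, N, fun η' hη' => hN η' ?_,
      fun x' hx' => hm x' hx'⟩, fun i hi => if_pos hi⟩
    intro i hi j hj
    rw [← hη' i hi j hj]
    by_cases hin : i < n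
    · simp only [hin, if_true, hη i hin]
    · simp only [hin, if_false]
      exact (hb i j hj).symm

/-- The key: some valid code computable from `y` covers all elements of `E` that are computable
from `y` and do not belong to all `V k`. -/
theorem exists_generic (hC : Hereditary CC) (ha : Letters CC E z a) {V : ℕ → Set (ℕ → Bool)}
    (hV : ∀ k, IsOpen (V k)) (hw : ∀ k, Meet CC E z a (V k)) :
    ∃ y, TLE z y ∧ ∃ c, TLE c y ∧ (∀ i, Clo c i ∈ CC) ∧
      ∀ x ∈ E, TLE x y → (∃ k, x ∉ V k) → ∃ i, x ∈ Clo c i := by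
  have h1 : ∀ᶠ h in residual (ℕ → ℕ), ∀ j : ℕ, ∃ i, h i = j := by
    refine eventually_countable_forall.2 fun j => ?_
    refine residual_of_dense_open (isOpen_of_cylN ?_) (dense_of_cylN fun h N => ?_)
    · rintro h ⟨i, hi⟩
      exact ⟨i + 1, fun g hg => ⟨i, by rw [hg i (Nat.lt_succ_self i), hi]⟩⟩
    · exact ⟨fun i => if i < N then h i else j, ⟨N, by simp⟩, fun i hi => if_pos hi⟩
  have h2 : ∀ᶠ h in residual (ℕ → ℕ), ∀ (e : OCode) (k : ℕ),
      h ∈ On z a (V k) e ∪ Zn CC E z a e := by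
    refine eventually_countable_forall.2 fun e => ?_
    refine eventually_countable_forall.2 fun k => ?_
    exact residual_of_dense_open ((isOpen_On z a (V k) e).union (isOpen_Zn CC E z a e))
      (dense_On ha (hV k) (hw k) e)
  obtain ⟨h, hg1, hg2⟩ : ∃ h : ℕ → ℕ, (∀ j : ℕ, ∃ i, h i = j) ∧
      ∀ (e : OCode) (k : ℕ), h ∈ On z a (V k) e ∪ Zn CC E z a e :=
    (dense_of_mem_residual (h1.and h2)).nonempty
  set η : ℕ → (ℕ → Bool) := fun i => a (h i) with hη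
  refine ⟨yy z η, tle_left _ _, comb η, tle_comb _ _, fun i => ?_, ?_⟩
  · rw [Clo_comb]
    exact ha.valid _ _
  rintro x hxE hx ⟨k, hk⟩
  obtain ⟨e, he⟩ := exists_U hx
  have h3 : h ∉ On z a (V k) e := by
    rintro ⟨x', m, N, h4, h5⟩
    refine hk (h5 x fun l hl => ?_)
    by_contra hne
    refine disjoint_U e l (yy z η) ?_
    have h6 := he l
    have h7 := h4 η (fun _ _ _ _ => rfl) l hl
    revert h6 h7 hne
    cases x l <;> cases x' l <;> intro h6 h7 h8 <;>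
      first | exact absurd rfl h6 | exact ⟨h7, h8⟩ | exact ⟨h8, h7⟩
  obtain ⟨n, hn⟩ : h ∈ Zn CC E z a e := (hg2 e k).resolve_left h3
  obtain ⟨j, hj⟩ := ha.cov e h n
  obtain ⟨i, hi⟩ := hg1 j
  have h6 : η i = cvt CC (E ∩ Pos z e (fun j => a (h j)) n) := by
    rw [← hj, hη]
    simp only [hi]
  have h5 := subset_cvt hC hn
  rw [← h6] at h5
  obtain ⟨k', hk'⟩ := Set.mem_iUnion.1 (h5 ⟨hxE, fun m => ⟨η, fun _ _ => rfl, fun l _ => he l⟩⟩)
  refine ⟨Nat.pair i k', ?_⟩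
  rw [Clo_comb, Nat.unpair_pair]
  exact hk'

/-- If player II wins the game, then there is a countable family `PP` of closed sets `P` such that
`E ∩ P` is not small and every countable cover of `E` by closed sets has a member that contains
some `P ∈ PP`. -/
theorem based (hC : Hereditary CC) (hII : WinsII (Vs CC E)) :
    ∃ PP : Set (Set (ℕ → Bool)), PP.Countable ∧
    (∀ P ∈ PP, IsClosed P ∧ ¬ Small CC (E ∩ P)) ∧
    ∀ K : ℕ → Set (ℕ → Bool), (∀ k, IsClosed (K k)) → E ⊆ ⋃ k, K k → ∃ k, ∃ P ∈ PP, P ⊆ K k := by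
  obtain ⟨z, hz⟩ := Pool.Agent.Helper56TB.cone_of_winsII (turingInvariant_Vs CC E) hII
  obtain ⟨a, ha⟩ := exists_letters hC E z
  have hpos : ∀ (e : OCode) (s : ℕ → ℕ) (n : ℕ), ∃ l : List ℕ,
      Pos z e (fun i => a (s i)) n = Pos z e (fun i => a (l.getD i 0)) l.length := by
    intro e s n
    refine ⟨(List.range n).map s, ?_⟩
    rw [List.length_map, List.length_range]
    refine Pos_congr z e fun i hi => ?_
    simp [List.getD_eq_getElem?_getD, hi]
  refine ⟨{P | ∃ (e : OCode) (l : List ℕ), P = Pos z e (fun i => a (l.getD i 0)) l.length ∧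
    ¬ Small CC (E ∩ P)}, ?_, ?_, fun K hK hEK => ?_⟩
  · refine (Set.countable_range fun p : OCode × List ℕ =>
      Pos z p.1 (fun i => a (p.2.getD i 0)) p.2.length).mono ?_
    rintro P ⟨e, l, rfl, -⟩
    exact ⟨(e, l), rfl⟩
  · rintro P ⟨e, l, rfl, h0⟩
    exact ⟨isClosed_Pos _ _ _ _, h0⟩
  · by_contra hcon
    push Not at hcon
    obtain ⟨y, hy, c, hc, hcC, hcx⟩ := exists_generic hC ha (V := fun k => (K k)ᶜ)
      (fun k => (hK k).isOpen_compl) fun k e s n h0 => by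
        obtain ⟨l, hl⟩ := hpos e s n
        obtain ⟨x, hx, hxK⟩ := Set.not_subset.1 (hcon k (Pos z e (fun i => a (s i)) n)
          ⟨e, l, hl, h0⟩)
        exact ⟨x, hx, hxK⟩
    refine hz y hy ⟨c, hc, hcC, fun x hx hxy => hcx x hx hxy ?_⟩
    obtain ⟨k, hk⟩ := Set.mem_iUnion.1 (hEK hx)
    exact ⟨k, fun h3 => h3 hk⟩

end Pool.Agent.Helper15DD
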