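import Mathlib
import Pool.Agent.Helper15_DD.Based

/-!
# Generic sequences of letters along a tree
-/

set_option autoImplicit false

namespace Pool.Agent.Helper15DD

open MeasureTheory Filter Topology Pool.Agent.Helper25TD Pool.Agent.Helper56WN

/-- all nonempty relatively open parts of `P` have positive measure for some measure in `M` -/
def LocPos (M : Set (Measure (ℕ → Bool))) (P : Set (ℕ → Bool)) : Prop :=
  ∀ O, IsOpen O → (P ∩ O).Nonempty → ∃ μ ∈ M, μ (P ∩ O) ≠ 0

/-- `E ∩ P` is meager in `P` -/
def MeagerIn (P E : Set (ℕ → Bool)) : Prop := IsMeagre {p : P | (p : ℕ → Bool) ∈ E}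

/-- finite sequences of indices, ordered by end extension -/
structure Cnd : Type where
  /-- the list of indices -/
  l : List ℕ

instance : Preorder Cnd where
  le s t := s.l <+: t.l
  le_refl s := List.prefix_rfl
  le_trans _ _ _ := List.IsPrefix.trans

theorem Cnd.le_iff {s t : Cnd} : s ≤ t ↔ s.l <+: t.l := Iff.rfl

section

variable (z : ℕ → Bool) (a : ℕ → (ℕ → Bool)) (c : ℕ → OCode)

/-- the rows of `η` below the length of `t` are the letters given by `t` -/
def Rows (t : Cnd) (η : ℕ → (ℕ → Bool)) : Prop := ∀ i < t.l.length, η i = a (t.l.getD i 0)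

open Classical in
/-- the values that are forced by the condition `t` -/
noncomputable def vl (n : ℕ) (t : Cnd) (k : ℕ) : Option Bool :=
  if k < t.l.length then
    if ∀ η, Rows a t η → yy z η ∈ U (c n) k true then some true
    else if ∀ η, Rows a t η → yy z η ∈ U (c n) k false then some false
    else none
  else none

variable {z a c}

theorem rows_self (t : Cnd) : Rows a t fun i => a (t.l.getD i 0) := fun _ _ => rfl

theorem Rows.mono {s t : Cnd} (h : s ≤ t) {η : ℕ → (ℕ → Bool)} (ht : Rows a t η) :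
    Rows a s η := by
  intro i hi
  obtain ⟨r, hr⟩ := Cnd.le_iff.1 h
  have h1 : i < t.l.length := hi.trans_le (Cnd.le_iff.1 h).length_le
  rw [ht i h1, ← hr]
  simp only [List.getD_eq_getElem?_getD]
  rw [List.getElem?_append_left hi]

theorem vl_eq_some {n : ℕ} {t : Cnd} {k : ℕ} {b : Bool} : vl z a c n t k = some b ↔
    k < t.l.length ∧ ∀ η, Rows a t η → yy z η ∈ U (c n) k b := by
  unfold vl
  by_cases hk : k < t.l.length
  · rw [if_pos hk]
    by_cases h1 : ∀ η, Rows a t η → yy z η ∈ U (c n) k true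
    · rw [if_pos h1]
      cases b with
      | true =>
        simp only [hk, true_and, true_iff]
        exact h1
      | false =>
        simp only [Option.some.injEq, Bool.true_eq_false, false_iff, not_and, hk, true_implies]
        intro h2
        exact disjoint_U _ _ _ ⟨h1 _ (rows_self t), h2 _ (rows_self t)⟩
    · rw [if_neg h1]
      by_cases h2 : ∀ η, Rows a t η → yy z η ∈ U (c n) k false
      · rw [if_pos h2]
        cases b with
        | true => simp [h1]
        | false =>
          simp only [hk, true_and, true_iff]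
          exact h2
      · rw [if_neg h2]
        cases b <;> simp [h1, h2]
  · rw [if_neg hk]
    simp [hk]

theorem vl_mono (n : ℕ) {s t : Cnd} (h : s ≤ t) (k : ℕ) (b : Bool)
    (hb : vl z a c n s k = some b) : vl z a c n t k = some b := by
  rw [vl_eq_some] at hb ⊢
  exact ⟨hb.1.trans_le (Cnd.le_iff.1 h).length_le, fun η hη => hb.2 η (hη.mono h)⟩

theorem vl_fin (n : ℕ) (t : Cnd) : ∃ J, ∀ k ≥ J, vl z a c n t k = none := by
  refine ⟨t.l.length, fun k hk => ?_⟩
  rw [vl, if_neg (by omega)]

/-- finitely many values are forced by extensions -/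
theorem exists_force {CC : Set (Set (ℕ → Bool))} {E : Set (ℕ → Bool)} (ha : Letters CC E z a)
    {n : ℕ} {t : Cnd} {η : ℕ → (ℕ → Bool)} (hη : Rows a t η) {x : ℕ → Bool} {m : ℕ}
    (h : ∀ l < m, yy z η ∈ U (c n) l (x l)) :
    ∃ t' ≥ t, ∀ k < m, vl z a c n t' k = some (x k) := by
  obtain ⟨N, hN⟩ := exists_agr z (c n) h
  have h1 : ∀ i, ∃ j, ∀ l < N, a j l = η i l := fun i => ha.fin (η i) N
  choose b hb using h1
  have hlen : (t.l ++ (List.range (max N m)).map fun i => b (i + t.l.length)).length =
      t.l.length + max N m := by simp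
  refine ⟨⟨t.l ++ (List.range (max N m)).map fun i => b (i + t.l.length)⟩,
    List.prefix_append _ _, fun k hk => ?_⟩
  rw [vl_eq_some]
  refine ⟨by rw [hlen]; omega, fun η' hη' => hN η' (fun i hi j hj => ?_) k hk⟩
  by_cases hin : i < t.l.length
  · rw [hη i hin, (hη'.mono (s := t) (List.prefix_append _ _)) i hin]
  · have h2 := hη' i (by rw [hlen]; omega)
    have h3 : (t.l ++ (List.range (max N m)).map fun i => b (i + t.l.length)).getD i 0 = b i := by
      rw [List.getD_eq_getElem?_getD, List.getElem?_append_right (by omega),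
        List.getElem?_map, List.getElem?_range (by omega)]
      simp only [Option.map_some, Option.getD_some]
      congr 1
      omega
    rw [h2]
    change η i j = a ((t.l ++ (List.range (max N m)).map fun i => b (i + t.l.length)).getD i 0) j
    rw [h3]
    exact (hb i j hj).symm

/-- the closed set of all limits of values above `t` -/
theorem limits_eq {CC : Set (Set (ℕ → Bool))} {E : Set (ℕ → Bool)} (ha : Letters CC E z a)
    (n : ℕ) (t : Cnd) : {x : ℕ → Bool | ∀ m, ∃ t' ≥ t, ∀ k < m, vl z a c n t' k = some (x k)} =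
      Pos z (c n) (fun i => a (t.l.getD i 0)) t.l.length := by
  ext x
  constructor
  · intro hx m
    obtain ⟨t', h1, h2⟩ := hx m
    refine ⟨fun i => a (t'.l.getD i 0), fun i hi => ?_, fun l hl => ?_⟩
    · exact ((rows_self t').mono h1) i hi
    · exact (vl_eq_some.1 (h2 l hl)).2 _ (rows_self t')
  · intro hx m
    obtain ⟨η, h1, h2⟩ := hx m
    exact exists_force ha h1 h2

end

/-- the conclusion of the abstract generic theorem -/
def Concl (M : Set (Measure (ℕ → Bool))) (E : Set (ℕ → Bool)) (val : ℕ → Cnd → ℕ → Option Bool)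
    (t : ℕ → Cnd) (n : ℕ) : Prop :=
  (∃ i m, ∀ t' ≥ t i, val n t' m = none) ∨
    (∃ i, ∀ μ ∈ M, μ {x | ∀ m, ∃ t' ≥ t i, ∀ k < m, val n t' k = some (x k)} = 0) ∨
      ∀ x, (∀ i k b, val n (t i) k = some b → x k = b) → x ∉ E

/-- the abstract generic theorem for the conditions `Cnd` -/
def TreeThm (M : Set (Measure (ℕ → Bool))) (E : Set (ℕ → Bool)) : Prop :=
  ∀ (val : ℕ → Cnd → ℕ → Option Bool),
    (∀ n s t, s ≤ t → ∀ k b, val n s k = some b → val n t k = some b) →
    (∀ n t, ∃ J, ∀ k ≥ J, val n t k = none) →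
    ∀ D : ℕ → Cnd → Prop, (∀ i s, ∃ t ≥ s, D i t) → (∀ i s t, s ≤ t → D i s → D i t) →
      ∃ t : ℕ → Cnd, (∀ i, t i ≤ t (i + 1)) ∧ (∀ i, ∃ j, D i (t j)) ∧ ∀ n, Concl M E val t n

variable {E : Set (ℕ → Bool)} {M : Set (Measure (ℕ → Bool))}

/-- If `E` is meager in every locally positive closed set, then `Vs` meets every cone. -/
theorem exists_mem_Vs (hT : TreeThm M E) (z : ℕ → Bool) :
    ∃ y, TLE z y ∧ y ∈ Vs (NullFor M) E := by
  have hC := hereditary_nullFor M
  obtain ⟨a, ha⟩ := exists_letters hC E z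
  obtain ⟨c, hc⟩ := exists_surjective_nat OCode
  obtain ⟨t, ht, hD, hn⟩ := hT (vl z a c) (fun n s t h => vl_mono n h) vl_fin
    (fun i s => i ∈ s.l)
    (fun i s => ⟨⟨s.l ++ [i]⟩, List.prefix_append _ _, by simp⟩)
    (fun i s t h hi => (Cnd.le_iff.1 h).subset hi)
  have hle : ∀ i j, i ≤ j → t i ≤ t j := by
    intro i j hij
    induction hij with
    | refl => exact le_rfl
    | step _ ih => exact ih.trans (ht _)
  -- the lengths are unbounded
  have hlen : ∀ m, ∃ j, m ≤ (t j).l.length := by
    intro m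
    have h1 : ∃ j, ∀ i < m, i ∈ (t j).l := by
      induction m with
      | zero => exact ⟨0, by simp⟩
      | succ m ih =>
        obtain ⟨j, hj⟩ := ih
        obtain ⟨j', hj'⟩ := hD m
        refine ⟨max j j', fun i hi => ?_⟩
        rcases Nat.lt_succ_iff_lt_or_eq.1 hi with hi | rfl
        · exact (Cnd.le_iff.1 (hle _ _ (le_max_left j j'))).subset (hj i hi)
        · exact (Cnd.le_iff.1 (hle _ _ (le_max_right j j'))).subset hj'
    obtain ⟨j, hj⟩ := h1
    refine ⟨j, ?_⟩
    have h2 : Finset.range m ⊆ (t j).l.toFinset := fun i hi =>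
      List.mem_toFinset.2 (hj i (Finset.mem_range.1 hi))
    have h3 := Finset.card_le_card h2
    rw [Finset.card_range] at h3
    exact h3.trans (List.toFinset_card_le _)
  choose J hJ using hlen
  let h : ℕ → ℕ := fun i => (t (J (i + 1))).l.getD i 0
  have hh : ∀ i j, i < (t j).l.length → (t j).l.getD i 0 = h i := by
    intro i j hij
    have h1 : i < (t (J (i + 1))).l.length := Nat.lt_of_lt_of_le (Nat.lt_succ_self i) (hJ (i + 1))
    have key : ∀ p q, p ≤ q → i < (t p).l.length → (t q).l.getD i 0 = (t p).l.getD i 0 := by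
      intro p q hpq hi
      obtain ⟨r, hr⟩ := Cnd.le_iff.1 (hle p q hpq)
      rw [← hr, List.getD_eq_getElem?_getD, List.getD_eq_getElem?_getD,
        List.getElem?_append_left hi]
    rcases le_total j (J (i + 1)) with h2 | h2
    · exact (key _ _ h2 hij).symm
    · exact key _ _ h2 h1
  set η : ℕ → (ℕ → Bool) := fun i => a (h i) with hη
  have hrows : ∀ j, Rows a (t j) η := fun j i hi => by rw [hη, hh i j hi]
  refine ⟨yy z η, tle_left _ _, comb η, tle_comb _ _, fun i => ?_, ?_⟩
  · rw [Clo_comb]
    exact ha.valid _ _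
  intro x hxE hx
  obtain ⟨e, he⟩ := exists_U hx
  obtain ⟨n, rfl⟩ := hc e
  -- all values are forced along the sequence
  have hval : ∀ m, ∃ j, ∀ k < m, vl z a c n (t j) k = some (x k) := by
    intro m
    obtain ⟨N, hN⟩ := exists_agr z (c n) (η := η) (x := x) (m := m) fun l _ => he l
    refine ⟨J (max N m), fun k hk => ?_⟩
    rw [vl_eq_some]
    have h1 := hJ (max N m)
    refine ⟨by omega, fun η' hη' => hN η' (fun i hi j _ => ?_) k hk⟩
    have h2 : i < (t (J (max N m))).l.length := by omega
    rw [hη' i h2, hrows _ i h2]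
  rcases hn n with ⟨i, m, him⟩ | ⟨i, h0⟩ | hx'
  · exfalso
    obtain ⟨j, hj⟩ := hval (m + 1)
    have h1 := vl_mono n (hle j (max i j) (le_max_right _ _)) m _ (hj m (by omega))
    rw [him _ (hle i (max i j) (le_max_left _ _))] at h1
    exact absurd h1 (by simp)
  · rw [limits_eq ha n (t i)] at h0
    have h1 : Small (NullFor M) (E ∩ Pos z (c n) (fun i => a (h i)) (t i).l.length) := by
      have h2 : Pos z (c n) (fun i => a (h i)) (t i).l.length ∈ NullFor M := by
        refine ⟨isClosed_Pos _ _ _ _, fun μ hμ => ?_⟩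
        rw [← h0 μ hμ]
        congr 1
        exact Pos_congr z (c n) fun j hj => by rw [hh j i hj]
      exact (small_of_mem h2).mono Set.inter_subset_right
    obtain ⟨j, hj⟩ := ha.cov (c n) h (t i).l.length
    obtain ⟨i', hi'⟩ := hD j
    obtain ⟨p, hp, hp'⟩ := List.getElem_of_mem hi'
    have h6 : η p = cvt (NullFor M) (E ∩ Pos z (c n) (fun j => a (h j)) (t i).l.length) := by
      rw [← hj, hη]
      have h7 : h p = j := by
        rw [← hh p i' hp, ← hp']
        simp [List.getD_eq_getElem?_getD, hp]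
      simp only [h7]
    have h5 := subset_cvt hC h1
    rw [← h6] at h5
    obtain ⟨k', hk'⟩ := Set.mem_iUnion.1
      (h5 ⟨hxE, fun m => ⟨η, fun _ _ => rfl, fun l _ => he l⟩⟩)
    refine ⟨Nat.pair p k', ?_⟩
    rw [Clo_comb, Nat.unpair_pair]
    exact hk'
  · exfalso
    refine hx' x (fun i k b hb => ?_) hxE
    have h1 := (vl_eq_some.1 hb).2 η (hrows i)
    have h2 := he k
    by_contra hne
    refine disjoint_U (c n) k (yy z η) ?_
    cases hxk : x k <;> cases b <;> simp_all

/-- Player II wins: `E` is not meager in some locally positive closed set. -/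
theorem exists_not_meagerIn (hT : (∀ P, IsClosed P → LocPos M P → MeagerIn P E) → TreeThm M E)
    (h : WinsII (Vs (NullFor M) E)) : ∃ P, IsClosed P ∧ LocPos M P ∧ ¬ MeagerIn P E := by
  by_contra hcon
  push Not at hcon
  obtain ⟨z, hz⟩ := Pool.Agent.Helper56TB.cone_of_winsII (turingInvariant_Vs _ E) h
  obtain ⟨y, hy, hyV⟩ := exists_mem_Vs (hT hcon) z
  exact hz y hy hyV

end Pool.Agent.Helper15DD
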