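import Mathlib
import Pool.Agent.Helper15_DD.Plug
import Pool.Agent.Helper56_WN.Corollaries

/-!
# Countable sets, and sets that are separated by an `F_σ` set
-/

set_option autoImplicit false

namespace Pool.Agent.Helper15DD

open MeasureTheory Filter Topology Pool.Agent.Helper25TD Pool.Agent.Helper56WN

/-- the finite measures without atoms -/
def Atomless : Set (Measure (ℕ → Bool)) := {μ | IsFiniteMeasure μ ∧ ∀ x, μ {x} = 0}

theorem coin_singleton (x : ℕ → Bool) : coin {x} = 0 := by
  have h1 := coin_insert (x := x) (S := ∅) measure_empty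
  rwa [insert_empty_eq] at h1

/-- a closed set is countable if and only if it is null for all finite measures without atoms -/
theorem nullFor_atomless_iff {C : Set (ℕ → Bool)} :
    C ∈ NullFor Atomless ↔ IsClosed C ∧ C.Countable := by
  constructor
  · rintro ⟨hC, h⟩
    refine ⟨hC, ?_⟩
    by_contra hcon
    have hB : ∀ _ : ℕ, PolishSpace Bool := fun _ => inferInstance
    have hP : PolishSpace (ℕ → Bool) := inferInstance
    obtain ⟨f, hf1, hf2, hf3⟩ := hC.exists_nat_bool_injection_of_not_countable hcon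
    have h1 : coin.map f ∈ Atomless := by
      refine ⟨Measure.isFiniteMeasure_map _ _, fun x => ?_⟩
      rw [Measure.map_apply hf2.measurable (measurableSet_singleton x)]
      rcases (f ⁻¹' {x}).eq_empty_or_nonempty with h2 | ⟨y, hy⟩
      · rw [h2, measure_empty]
      · refine measure_mono_null (fun w hw => ?_) (coin_singleton y)
        have h3 : f w = x := hw
        have h4 : f y = x := hy
        exact hf3 (h3.trans h4.symm)
    have h2 := h _ h1
    rw [Measure.map_apply hf2.measurable hC.measurableSet] at h2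
    have h3 : f ⁻¹' C = Set.univ := Set.eq_univ_of_forall fun y => hf1 (Set.mem_range_self y)
    rw [h3, measure_univ] at h2
    exact absurd h2 one_ne_zero
  · rintro ⟨hC, h⟩
    refine ⟨hC, fun μ hμ => ?_⟩
    have : NullSingletonClass μ := ⟨hμ.2⟩
    exact h.measure_zero μ

theorem small_atomless_iff {E : Set (ℕ → Bool)} : Small (NullFor Atomless) E ↔ E.Countable := by
  constructor
  · rintro ⟨K, h1, h2⟩
    exact (Set.countable_iUnion fun n => (nullFor_atomless_iff.1 (h1 n)).2).mono h2
  · intro h
    rcases E.eq_empty_or_nonempty with h0 | h0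
    · rw [h0]
      exact small_of_mem (hereditary_nullFor _).empty
    · obtain ⟨f, hf⟩ := h.exists_eq_range h0
      refine ⟨fun n => {f n}, fun n => nullFor_atomless_iff.2 ⟨isClosed_singleton,
        Set.countable_singleton _⟩, ?_⟩
      rw [hf]
      rintro _ ⟨n, rfl⟩
      exact Set.mem_iUnion.2 ⟨n, rfl⟩

/-- locally positive sets for atomless measures are perfect -/
theorem perfect_of_locPos {P : Set (ℕ → Bool)} (hP : IsClosed P) (h : LocPos Atomless P) :
    Perfect P := by
  refine ⟨hP, fun x hx => ?_⟩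
  rw [accPt_iff_nhds]
  intro O hO
  obtain ⟨V, hV1, hV2, hV3⟩ := mem_nhds_iff.1 hO
  by_contra hcon
  push Not at hcon
  obtain ⟨μ, hμ, hne⟩ := h V hV2 ⟨x, hx, hV3⟩
  refine hne (measure_mono_null (t := {x}) (fun y hy => ?_) (hμ.2 x))
  exact hcon y ⟨hV1 hy.2, hy.1⟩

/-- a nonempty meager part: a set that is not meager in `P` meets `P` -/
theorem nonempty_of_not_meagerIn {P E : Set (ℕ → Bool)} (h : ¬ MeagerIn P E) :
    (P ∩ E).Nonempty := by
  by_contra hcon
  apply h
  have h1 : {p : P | (p : ℕ → Bool) ∈ E} = ∅ := by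
    refine Set.eq_empty_iff_forall_notMem.2 fun p hp => hcon ⟨p, p.2, hp⟩
  unfold MeagerIn
  rw [h1]
  exact IsMeagre.empty

/-- the Dirac measures at the points of `D` -/
def Diracs (D : Set (ℕ → Bool)) : Set (Measure (ℕ → Bool)) := {μ | ∃ x ∈ D, μ = Measure.dirac x}

theorem nullFor_diracs_iff {D C : Set (ℕ → Bool)} :
    C ∈ NullFor (Diracs D) ↔ IsClosed C ∧ Disjoint C D := by
  refine and_congr_right fun hC => ?_
  rw [Set.disjoint_left]
  constructor
  · intro h x hxC hxD
    have h1 := h _ ⟨x, hxD, rfl⟩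
    rw [Measure.dirac_apply' x hC.measurableSet] at h1
    simp [hxC] at h1
  · rintro h _ ⟨x, hxD, rfl⟩
    rw [Measure.dirac_apply' x hC.measurableSet]
    exact Set.indicator_of_notMem (fun hx => h hx hxD) _

theorem locPos_diracs {D P : Set (ℕ → Bool)} (hP : IsClosed P) (h : LocPos (Diracs D) P) :
    P ⊆ closure (P ∩ D) := by
  intro x hx
  rw [mem_closure_iff]
  intro O hO hxO
  obtain ⟨_, ⟨y, hyD, rfl⟩, hne⟩ := h O hO ⟨x, hx, hxO⟩
  rw [Measure.dirac_apply' y (hP.measurableSet.inter hO.measurableSet)] at hne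
  by_contra hcon
  apply hne
  exact Set.indicator_of_notMem (fun hy => hcon ⟨y, hy.2, hy.1, hyD⟩) _

end Pool.Agent.Helper15DD
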