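import Mathlib
import Pool.Agent.Helper15_DD.Based
import Pool.Agent.Helper15_TD.Main
import Pool.Agent.Helper56_TB.Filters

/-!
# Products, sums and filters
-/

set_option autoImplicit false

namespace Pool.Agent.Helper15DD

open MeasureTheory Filter Topology Pool.Agent.Helper25TD Pool.Agent.Helper56WN
open Pool.Agent.Helper15TD (Sums add continuous_add exists_seq steinhaus)
open Pool.Agent.Helper56TB (Members flip_mem_residual)

variable {CC CC' : Set (Set (ℕ → Bool))} {E F : Set (ℕ → Bool)}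

theorem small_biUnion (hC : Hereditary CC) {ι : Type*} {A : Set ι} (hA : A.Countable)
    {S : ι → Set (ℕ → Bool)} (h : ∀ i ∈ A, Small CC (S i)) : Small CC (⋃ i ∈ A, S i) := by
  rcases A.eq_empty_or_nonempty with h0 | h0
  · subst h0
    simp only [Set.mem_empty_iff_false, Set.iUnion_of_empty, Set.iUnion_empty]
    exact small_of_mem hC.empty
  · obtain ⟨a, rfl⟩ := hA.exists_eq_range h0
    refine (small_iUnion fun n => h (a n) (Set.mem_range_self n)).mono ?_
    intro x hx
    obtain ⟨i, ⟨n, rfl⟩, hi⟩ := Set.mem_iUnion₂.1 hx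
    exact Set.mem_iUnion.2 ⟨n, hi⟩

/-- If player II wins the game for `E` and `F` is not small for a second family, and `E × F` is
covered by countably many closed sets, then one of these closed sets contains a closed rectangle
`P × Q` such that `E ∩ P` and `F ∩ Q` are not small. -/
theorem rectangles (hC : Hereditary CC) (hC' : Hereditary CC') (hII : WinsII (Vs CC E))
    (hF : ¬ Small CC' F) {K : ℕ → Set ((ℕ → Bool) × (ℕ → Bool))} (hK : ∀ k, IsClosed (K k))
    (hEF : E ×ˢ F ⊆ ⋃ k, K k) : ∃ (k : ℕ) (P Q : Set (ℕ → Bool)), IsClosed P ∧ IsClosed Q ∧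
      ¬ Small CC (E ∩ P) ∧ ¬ Small CC' (F ∩ Q) ∧ P ×ˢ Q ⊆ K k := by
  obtain ⟨PP, h1, h2, h3⟩ := based hC hII
  by_contra hcon
  push Not at hcon
  have hQ : ∀ (k : ℕ) (P : Set (ℕ → Bool)), IsClosed {w | ∀ x ∈ P, (x, w) ∈ K k} := by
    intro k P
    have h4 : {w | ∀ x ∈ P, (x, w) ∈ K k} = ⋂ x ∈ P, (fun w => (x, w)) ⁻¹' K k := by
      ext w
      simp
    rw [h4]
    exact isClosed_biInter fun x _ => (hK k).preimage (Continuous.prodMk_right x)
  have h5 : F ⊆ ⋃ k : ℕ, ⋃ P ∈ PP, F ∩ {w | ∀ x ∈ P, (x, w) ∈ K k} := by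
    intro w hw
    obtain ⟨k, P, hP, hPK⟩ := h3 (fun k => (fun x => (x, w)) ⁻¹' K k)
      (fun k => (hK k).preimage (Continuous.prodMk_left w)) (fun x hx => by
        obtain ⟨k, hk⟩ := Set.mem_iUnion.1 (hEF (Set.mk_mem_prod hx hw))
        exact Set.mem_iUnion.2 ⟨k, hk⟩)
    exact Set.mem_iUnion.2 ⟨k, Set.mem_iUnion₂.2 ⟨P, hP, hw, fun x hx => hPK hx⟩⟩
  refine hF ((small_iUnion fun k => small_biUnion hC' h1 fun P hP => ?_).mono h5)
  by_contra h0
  refine hcon k P _ (h2 P hP).1 (hQ k P) (h2 P hP).2 h0 ?_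
  rintro ⟨x, w⟩ ⟨hx, hw⟩
  exact hw x hx

/-! ### the fair coin measure -/

theorem coin_ne_of_not_small {P : Set (ℕ → Bool)} (hP : IsClosed P)
    (h : ¬ Small (NullFor {coin}) (E ∩ P)) : coin P ≠ 0 := fun h0 =>
  h ((small_of_mem (show P ∈ NullFor {coin} from ⟨hP, fun μ hμ => by
    rw [Set.mem_singleton_iff] at hμ
    rw [hμ]
    exact h0⟩)).mono Set.inter_subset_right)

/-- If player II wins and `F` is not covered by countably many closed null sets, then `E + F` is
not meager. -/
theorem not_isMeagre_sums (hII : WinsII (Vs (NullFor {coin}) E))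
    (hF : ¬ Small (NullFor {coin}) F) : ¬ IsMeagre (Sums E F) := by
  intro hm
  obtain ⟨V, hV1, hV2, hV3⟩ := exists_seq hm
  obtain ⟨k, P, Q, hP, hQ, hEP, hFQ, hPQ⟩ := rectangles (hereditary_nullFor _)
    (hereditary_nullFor _) hII hF
    (K := fun k => {p | add p.1 p.2 ∉ V k})
    (fun k => ((hV1 k).preimage continuous_add).isClosed_compl) (by
      rintro ⟨x, y⟩ ⟨hx, hy⟩
      by_contra hcon
      simp only [Set.mem_iUnion, not_exists] at hcon
      refine hV3 (Set.mem_iInter.2 fun k => ?_) ⟨x, hx, y, hy, rfl⟩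
      by_contra h2
      exact hcon k h2)
  obtain ⟨n, a, ha⟩ := steinhaus hP hQ (coin_ne_of_not_small hP hEP)
    (coin_ne_of_not_small hQ hFQ)
  obtain ⟨u, huV, hu⟩ := (hV2 k).exists_mem_open (Pool.Agent.Helper25TD.isOpen_cyl a n)
    ⟨a, fun _ _ => rfl⟩
  obtain ⟨x, hx, y, hy, rfl⟩ := ha u hu
  exact hPQ (Set.mk_mem_prod hx hy) huV

theorem winsII_of_determined (hC : Hereditary CC) (h : WinsI (Vs CC E) ∨ WinsII (Vs CC E))
    (hE : ¬ Small CC E) : WinsII (Vs CC E) :=
  h.resolve_left fun h2 => hE ((winsI_Vs_iff hC E).1 h2)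

/-- A meager filter on `ω` for which the game is determined is covered by countably many closed
null sets. -/
theorem small_members {F : Filter ℕ} (hm : IsMeagre (Members F))
    (h : WinsI (Vs (NullFor {coin}) (Members F)) ∨ WinsII (Vs (NullFor {coin}) (Members F))) :
    Small (NullFor {coin}) (Members F) := by
  by_contra h0
  refine not_isMeagre_sums (winsII_of_determined (hereditary_nullFor _) h h0) h0 ?_
  have h1 := flip_mem_residual (fun _ => true) hm
  change (Sums (Members F) (Members F))ᶜ ∈ residual (ℕ → Bool)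
  filter_upwards [h1] with w hw
  rintro ⟨x, hx, y, hy, hxy⟩
  refine hw ?_
  have h2 : {n | x n = true} ∩ {n | y n = true} ∈ F := Filter.inter_mem hx hy
  refine Filter.mem_of_superset h2 ?_
  rintro n ⟨h3, h4⟩
  have h5 : x n = true := h3
  have h6 : y n = true := h4
  change Pool.Agent.Helper56TB.flip (fun _ => true) w n = true
  rw [Pool.Agent.Helper56TB.flip_apply, hxy]
  simp [h5, h6]

end Pool.Agent.Helper15DD
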