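import Mathlib
import Pool.Agent.Helper15_DD.Sums
import Pool.Agent.Helper15_DD.Countable
import Pool.Agent.Helper15_DD.Tree

/-!
# The dichotomies
-/

set_option autoImplicit false

namespace Pool.Agent.Helper15DD

open MeasureTheory Filter Topology Pool.Agent.Helper25TD Pool.Agent.Helper56WN

variable {E : Set (ℕ → Bool)} {M : Set (Measure (ℕ → Bool))}

theorem treeThm (hM : ∀ μ ∈ M, IsFiniteMeasure μ)
    (hE : ∀ P, IsClosed P → LocPos M P → MeagerIn P E) : TreeThm M E := by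
  intro val h1 h2 D h3 h4
  obtain ⟨t, -, h5, h6, h7⟩ := Gen.exists_generic (A := Cnd) (val := val)
    ⟨hM⟩ ⟨fun n _ _ hst k b => h1 n _ _ hst k b, h2⟩ h3 h4 ⟨[]⟩ hE
  refine ⟨t, h5, h6, fun n => ?_⟩
  rcases h7 n with h | h | h
  · exact Or.inl h
  · exact Or.inr (Or.inl h)
  · exact Or.inr (Or.inr h.2)

/-- **The dichotomy.** -/
theorem dichotomy (hM : ∀ μ ∈ M, IsFiniteMeasure μ)
    (h : WinsI (Vs (NullFor M) E) ∨ WinsII (Vs (NullFor M) E)) (hE : ¬ Small (NullFor M) E) :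
    ∃ P : Set (ℕ → Bool), IsClosed P ∧ P.Nonempty ∧ LocPos M P ∧ ¬ MeagerIn P E := by
  obtain ⟨P, h1, h2, h3⟩ := exists_not_meagerIn (treeThm hM)
    (winsII_of_determined (hereditary_nullFor M) h hE)
  exact ⟨P, h1, (nonempty_of_not_meagerIn h3).mono Set.inter_subset_left, h2, h3⟩

theorem setOf_countable_eq : {C : Set (ℕ → Bool) | IsClosed C ∧ C.Countable} =
    NullFor Atomless := Set.ext fun _ => nullFor_atomless_iff.symm

theorem setOf_disjoint_eq (D : Set (ℕ → Bool)) :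
    {C : Set (ℕ → Bool) | IsClosed C ∧ Disjoint C D} = NullFor (Diracs D) :=
  Set.ext fun _ => nullFor_diracs_iff.symm

/-- the case of the countable closed sets -/
theorem countable_dichotomy
    (h : WinsI (Vs {C | IsClosed C ∧ C.Countable} E) ∨
      WinsII (Vs {C | IsClosed C ∧ C.Countable} E)) (hE : ¬ E.Countable) :
    ∃ P : Set (ℕ → Bool), Perfect P ∧ P.Nonempty ∧ ¬ MeagerIn P E := by
  rw [setOf_countable_eq] at h
  obtain ⟨P, h1, h2, h3, h4⟩ := dichotomy (fun μ hμ => hμ.1) h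
    (fun h5 => hE (small_atomless_iff.1 h5))
  exact ⟨P, perfect_of_locPos h1 h3, h2, h4⟩

/-- the case of the closed sets disjoint from `D` -/
theorem separation_dichotomy (D : Set (ℕ → Bool))
    (h : WinsI (Vs {C | IsClosed C ∧ Disjoint C D} E) ∨
      WinsII (Vs {C | IsClosed C ∧ Disjoint C D} E))
    (hE : ¬ Small {C | IsClosed C ∧ Disjoint C D} E) :
    ∃ P : Set (ℕ → Bool), IsClosed P ∧ P.Nonempty ∧ P ⊆ closure (P ∩ D) ∧ ¬ MeagerIn P E := by
  rw [setOf_disjoint_eq] at h hE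
  obtain ⟨P, h1, h2, h3, h4⟩ := dichotomy (fun μ hμ => by
    obtain ⟨x, -, rfl⟩ := hμ
    infer_instance) h hE
  exact ⟨P, h1, h2, locPos_diracs h1 h3, h4⟩

end Pool.Agent.Helper15DD
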